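import Pool.Agent.H47.THN.Targets

/-!
Board thn, row GK1, tools: smoothed values at well spaced points of a window, and the powers.
-/

set_option autoImplicit false

namespace Pool.Agent.H81.THN

open MeasureTheory Pool.Agent.H27.L1.H34.GM Pool.Agent.H27.L1.H34.GZ Pool.Agent.H27.L1.H34.GU
  Pool.Agent.H27.L1.H34.GA Pool.Agent.H27.L1.H68.GHY Pool.Agent.H27.L1.H34.GHY
  Pool.Agent.H27.L1.H34.GZZ Pool.Agent.H27.L1.H23.GB Pool.Agent.H47.THN

/-- the inequality of Cauchy -/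
lemma hold2 (k g : ℝ → ENNReal) (hk : Measurable k) (hg : Measurable g) :
    (∫⁻ x, k x * g x) ^ 2 ≤ (∫⁻ x, k x) * ∫⁻ x, k x * g x ^ 2 := by
  have h := ENNReal.lintegral_mul_le_Lp_mul_Lq (volume.withDensity k)
    (p := 2) (q := 2) (Real.holderConjugate_iff.2 ⟨by norm_num, by norm_num⟩)
    (f := fun _ => 1) (g := g) aemeasurable_const hg.aemeasurable
  have e1 : ∫⁻ a, ((fun _ : ℝ => (1 : ENNReal)) * g : ℝ → ENNReal) a ∂(volume.withDensity k) =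
      ∫⁻ x, k x * g x := by
    rw [lintegral_withDensity_eq_lintegral_mul _ hk (measurable_const.mul hg)]
    refine lintegral_congr (fun x => ?_)
    simp
  have e2 : ∫⁻ a, (1 : ENNReal) ^ (2 : ℝ) ∂(volume.withDensity k) = ∫⁻ x, k x := by
    rw [lintegral_withDensity_eq_lintegral_mul _ hk measurable_const]
    simp
  have e3 : ∫⁻ a, g a ^ (2 : ℝ) ∂(volume.withDensity k) = ∫⁻ x, k x * g x ^ 2 := by
    rw [lintegral_withDensity_eq_lintegral_mul _ hk (hg.pow_const _)]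
    refine lintegral_congr (fun x => ?_)
    simp only [Pi.mul_apply]
    congr 1
    exact_mod_cast ENNReal.rpow_natCast (g x) 2
  rw [e1, e2, e3] at h
  calc (∫⁻ x, k x * g x) ^ 2 ≤
      ((∫⁻ x, k x) ^ (1 / 2 : ℝ) * (∫⁻ x, k x * g x ^ 2) ^ (1 / 2 : ℝ)) ^ 2 :=
        pow_le_pow_left' h 2
    _ = _ := by
      rw [mul_pow, ← ENNReal.rpow_natCast, ← ENNReal.rpow_mul,
        ← ENNReal.rpow_natCast (_ ^ (1 / 2 : ℝ)), ← ENNReal.rpow_mul]
      norm_num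

/-- smoothed values at well spaced points against integrals over intervals -/
lemma wsp_int2 (k : ℝ → ℝ) (hkc : Continuous k) (hknn : ∀ τ, 0 ≤ k τ) (C : ℝ) (hC : 0 < C)
    (hk4 : ∀ τ, k τ ≤ C * ((1 + |τ|) ^ 4)⁻¹) : ∃ B : ℝ, 0 < B ∧
    ∀ (M : ℝ) (J : Finset ℝ) (f : ℝ → ℝ), 1 ≤ M → Wsp J → (∀ t ∈ J, |t| ≤ M) →
    Continuous f → (∀ u, 0 ≤ f u) → (∀ t, Integrable (fun τ => k τ * f (t + τ))) →
    ∑ t ∈ J, ENNReal.ofReal ((∫ τ : ℝ, k τ * f (t + τ)) ^ 2) ≤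
      ∑' j : ℤ, ENNReal.ofReal (B * ((1 + |(j : ℝ)|) ^ 2)⁻¹) *
        ∫⁻ u in Set.Icc (-M) M, ENNReal.ofReal (f (u + 2 * j * M) ^ 2) := by
  obtain ⟨B0, hB0, hsp⟩ := wsp_sum
  have hmk : Measurable (fun τ => ENNReal.ofReal (k τ)) :=
    ENNReal.measurable_ofReal.comp hkc.measurable
  -- the mass of the kernel
  obtain ⟨K1, hK1, hK1'⟩ : ∃ K1 : ℝ, 0 ≤ K1 ∧ ∫⁻ τ, ENNReal.ofReal (k τ) ≤ ENNReal.ofReal K1 := by
    have hint : Integrable (fun τ : ℝ => C * ((1 + |τ|) ^ 4)⁻¹) := by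
      have h1 : Integrable (fun τ : ℝ => (1 + ‖τ‖) ^ (-(4 : ℝ))) :=
        integrable_one_add_norm (by simp)
      refine (h1.const_mul C).congr (Filter.Eventually.of_forall (fun τ => ?_))
      show C * (1 + ‖τ‖) ^ (-(4 : ℝ)) = _
      rw [Real.rpow_neg (by positivity), Real.norm_eq_abs]
      congr 2
      exact_mod_cast Real.rpow_natCast (1 + |τ|) 4
    refine ⟨∫ τ : ℝ, C * ((1 + |τ|) ^ 4)⁻¹, integral_nonneg (fun τ => by positivity), ?_⟩
    rw [ofReal_integral_eq_lintegral_ofReal hint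
      (Filter.Eventually.of_forall (fun τ => by positivity))]
    exact lintegral_mono (fun τ => ENNReal.ofReal_le_ofReal (hk4 τ))
  refine ⟨K1 * (4 * C * B0) + 1, by positivity, ?_⟩
  intro M J f hM hJ hJM hf hf0 hfi
  set F : ℝ → ENNReal := fun u => ENNReal.ofReal (f u ^ 2) with hF
  have hFm : Measurable F := ENNReal.measurable_ofReal.comp (hf.pow 2).measurable
  -- one point
  have h1 : ∀ t ∈ J, ENNReal.ofReal ((∫ τ : ℝ, k τ * f (t + τ)) ^ 2) ≤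
      ENNReal.ofReal K1 * ∫⁻ u, ENNReal.ofReal (k (u - t)) * F u := by
    intro t _
    have e1 : ENNReal.ofReal ((∫ τ : ℝ, k τ * f (t + τ)) ^ 2) =
        (∫⁻ τ, ENNReal.ofReal (k τ) * ENNReal.ofReal (f (t + τ))) ^ 2 := by
      rw [ENNReal.ofReal_pow (integral_nonneg (fun τ => mul_nonneg (hknn τ) (hf0 _))),
        ofReal_integral_eq_lintegral_ofReal (hfi t)
          (Filter.Eventually.of_forall (fun τ => mul_nonneg (hknn τ) (hf0 _)))]
      congr 1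
      exact lintegral_congr (fun τ => ENNReal.ofReal_mul (hknn τ))
    rw [e1]
    have hm2 : Measurable (fun τ => ENNReal.ofReal (f (t + τ))) :=
      ENNReal.measurable_ofReal.comp (hf.comp (continuous_const.add continuous_id)).measurable
    refine (hold2 _ _ hmk hm2).trans ?_
    refine mul_le_mul' hK1' (le_of_eq ?_)
    have e2 := lintegral_sub_right_eq_self (μ := volume)
      (fun τ : ℝ => ENNReal.ofReal (k τ) * F (t + τ)) t
    have e3 : ∫⁻ τ, ENNReal.ofReal (k τ) * ENNReal.ofReal (f (t + τ)) ^ 2 =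
        ∫⁻ τ, ENNReal.ofReal (k τ) * F (t + τ) := by
      refine lintegral_congr (fun τ => ?_)
      rw [hF]
      simp only
      rw [ENNReal.ofReal_pow (hf0 _)]
    rw [e3, ← e2]
    refine lintegral_congr (fun u => ?_)
    rw [show t + (u - t) = u by ring]
  -- the kernel sum on an interval
  have h2 : ∀ (j : ℤ) (u : ℝ), u ∈ Set.Icc (2 * j * M - M) (2 * j * M + M) →
      ∑ t ∈ J, k (u - t) ≤ 4 * C * B0 * ((1 + |(j : ℝ)|) ^ 2)⁻¹ := by
    intro j u hu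
    have h3 : ∀ t ∈ J, (1 + |(j : ℝ)|) / 2 ≤ 1 + |u - t| := by
      intro t ht
      have ht1 := abs_le.1 (hJM t ht)
      have hj : |(j : ℝ)| ≤ |u - t| / (2 * M) + 1 := by
        have hM2 : 0 < 2 * M := by linarith
        have e4 : |2 * (j : ℝ) * M| ≤ |u - t| + 2 * M := by
          have : 2 * (j : ℝ) * M = (u - t) + (t - (u - 2 * j * M)) := by ring
          rw [this]
          refine (abs_add_le _ _).trans (add_le_add le_rfl ?_)
          rw [abs_le]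
          constructor <;> linarith [hu.1, hu.2, ht1.1, ht1.2]
        rw [abs_mul, abs_mul, abs_of_pos (by norm_num : (0 : ℝ) < 2),
          abs_of_pos (by linarith : 0 < M)] at e4
        rw [← sub_le_iff_le_add, le_div_iff₀ hM2]
        nlinarith
      have e5 : |u - t| / (2 * M) ≤ |u - t| / 2 := by
        apply div_le_div_of_nonneg_left (abs_nonneg _) (by norm_num)
        linarith
      have := abs_nonneg (u - t)
      linarith
    have h4 : ∀ t ∈ J, k (u - t) ≤ 4 * C * ((1 + |(j : ℝ)|) ^ 2)⁻¹ * ((1 + |u - t|) ^ 2)⁻¹ := by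
      intro t ht
      refine (hk4 _).trans ?_
      have e6 : 0 < 1 + |u - t| := by positivity
      have e7 : 0 < 1 + |(j : ℝ)| := by positivity
      have e8 : ((1 + |u - t|) ^ 2)⁻¹ ≤ 4 * ((1 + |(j : ℝ)|) ^ 2)⁻¹ := by
        have := pow_le_pow_left₀ (by positivity) (h3 t ht) 2
        rw [← div_eq_mul_inv, inv_eq_one_div, div_le_div_iff₀ (by positivity) (by positivity)]
        rw [div_pow] at this
        linarith
      calc C * ((1 + |u - t|) ^ 4)⁻¹ = C * (((1 + |u - t|) ^ 2)⁻¹ * ((1 + |u - t|) ^ 2)⁻¹) := by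
            rw [← mul_inv]
            ring_nf
        _ ≤ C * (4 * ((1 + |(j : ℝ)|) ^ 2)⁻¹ * ((1 + |u - t|) ^ 2)⁻¹) := by
            refine mul_le_mul_of_nonneg_left ?_ hC.le
            exact mul_le_mul_of_nonneg_right e8 (by positivity)
        _ = _ := by ring
    calc ∑ t ∈ J, k (u - t) ≤ ∑ t ∈ J, 4 * C * ((1 + |(j : ℝ)|) ^ 2)⁻¹ * ((1 + |u - t|) ^ 2)⁻¹ :=
          Finset.sum_le_sum h4
      _ = 4 * C * ((1 + |(j : ℝ)|) ^ 2)⁻¹ * ∑ t ∈ J, ((1 + |u - t|) ^ 2)⁻¹ := by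
          rw [Finset.mul_sum]
      _ ≤ 4 * C * ((1 + |(j : ℝ)|) ^ 2)⁻¹ * B0 :=
          mul_le_mul_of_nonneg_left (hsp J hJ u) (by positivity)
      _ = _ := by ring
  -- the cover
  have hcov : (Set.univ : Set ℝ) ⊆ ⋃ j : ℤ, Set.Icc (2 * (j : ℝ) * M - M) (2 * j * M + M) := by
    intro u _
    have hM2 : 0 < 2 * M := by linarith
    refine Set.mem_iUnion.2 ⟨⌊(u + M) / (2 * M)⌋, ?_⟩
    have e1 := Int.floor_le ((u + M) / (2 * M))
    have e2 := Int.lt_floor_add_one ((u + M) / (2 * M))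
    rw [le_div_iff₀ hM2] at e1
    rw [div_lt_iff₀ hM2] at e2
    constructor <;> nlinarith
  calc ∑ t ∈ J, ENNReal.ofReal ((∫ τ : ℝ, k τ * f (t + τ)) ^ 2) ≤
      ∑ t ∈ J, ENNReal.ofReal K1 * ∫⁻ u, ENNReal.ofReal (k (u - t)) * F u :=
        Finset.sum_le_sum h1
    _ = ENNReal.ofReal K1 * ∫⁻ u, ∑ t ∈ J, ENNReal.ofReal (k (u - t)) * F u := by
        rw [lintegral_finsetSum, Finset.mul_sum]
        intro t _
        exact (hmk.comp (measurable_id.sub_const t)).mul hFm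
    _ = ENNReal.ofReal K1 * ∫⁻ u in Set.univ, ∑ t ∈ J, ENNReal.ofReal (k (u - t)) * F u := by
        rw [Measure.restrict_univ]
    _ ≤ ENNReal.ofReal K1 * ∑' j : ℤ, ∫⁻ u in Set.Icc (2 * (j : ℝ) * M - M) (2 * j * M + M),
          ∑ t ∈ J, ENNReal.ofReal (k (u - t)) * F u := by
        refine mul_le_mul_right ?_ _
        exact (lintegral_mono_set hcov).trans (lintegral_iUnion_le _ _)
    _ ≤ ENNReal.ofReal K1 * ∑' j : ℤ, ENNReal.ofReal (4 * C * B0 * ((1 + |(j : ℝ)|) ^ 2)⁻¹) *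
          ∫⁻ u in Set.Icc (2 * (j : ℝ) * M - M) (2 * j * M + M), F u := by
        refine mul_le_mul_right (ENNReal.tsum_le_tsum (fun j => ?_)) _
        rw [← lintegral_const_mul _ hFm]
        refine setLIntegral_mono (hFm.const_mul _) (fun u hu => ?_)
        rw [← Finset.sum_mul, ← ENNReal.ofReal_sum_of_nonneg (fun t _ => hknn _)]
        exact mul_le_mul_left (ENNReal.ofReal_le_ofReal (h2 j u hu)) _
    _ ≤ _ := by
        rw [← ENNReal.tsum_mul_left]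
        refine ENNReal.tsum_le_tsum (fun j => ?_)
        have e9 : ∫⁻ u in Set.Icc (2 * (j : ℝ) * M - M) (2 * j * M + M), F u =
            ∫⁻ u in Set.Icc (-M) M, ENNReal.ofReal (f (u + 2 * j * M) ^ 2) := by
          have := (measurePreserving_add_right volume (2 * (j : ℝ) * M)).setLIntegral_comp_preimage
            (s := Set.Icc (2 * (j : ℝ) * M - M) (2 * j * M + M)) measurableSet_Icc hFm
          rw [← this]
          congr 2
          rw [Set.preimage_add_const_Icc]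
          congr 1 <;> ring
        rw [e9, ← mul_assoc]
        refine mul_le_mul_left ?_ _
        rw [← ENNReal.ofReal_mul (by positivity)]
        refine ENNReal.ofReal_le_ofReal ?_
        have : 0 < ((1 + |(j : ℝ)|) ^ 2)⁻¹ := by positivity
        nlinarith

/-- the shift of well spaced points -/
lemma wsp_shift {J : Finset ℝ} (hJ : Wsp J) (t0 : ℝ) : Wsp (J.image (fun t => t - t0)) := by
  intro t ht u hu hne
  rw [Finset.mem_image] at ht hu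
  obtain ⟨a, ha, rfl⟩ := ht
  obtain ⟨b, hb, rfl⟩ := hu
  have h1 : a ≠ b := fun h => hne (by rw [h])
  have h2 := hJ a ha b hb h1
  rwa [show a - t0 - (b - t0) = a - b by ring]

lemma wsp_card0 {J : Finset ℝ} (hJ : Wsp J) {t0 P : ℝ} (hP : 1 ≤ P)
    (h : ∀ t ∈ J, |t - t0| ≤ P) : (J.card : ℝ) ≤ 4 * P := by
  have h1 : (J.image (fun t => t - t0)).card = J.card :=
    Finset.card_image_of_injective _ (sub_left_injective)
  rw [← h1]
  refine wsp_card (wsp_shift hJ t0) hP (fun t ht => ?_)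
  rw [Finset.mem_image] at ht
  obtain ⟨a, ha, rfl⟩ := ht
  exact h a ha

/-- the same in a window around `t0` -/
lemma wsp_int0 {k : ℝ → ℝ} {B t0 M : ℝ} {J : Finset ℝ} {f : ℝ → ℝ}
    (h : ∀ (M : ℝ) (J : Finset ℝ) (f : ℝ → ℝ), 1 ≤ M → Wsp J → (∀ t ∈ J, |t| ≤ M) →
    Continuous f → (∀ u, 0 ≤ f u) → (∀ t, Integrable (fun τ => k τ * f (t + τ))) →
    ∑ t ∈ J, ENNReal.ofReal ((∫ τ : ℝ, k τ * f (t + τ)) ^ 2) ≤
      ∑' j : ℤ, ENNReal.ofReal (B * ((1 + |(j : ℝ)|) ^ 2)⁻¹) *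
        ∫⁻ u in Set.Icc (-M) M, ENNReal.ofReal (f (u + 2 * j * M) ^ 2))
    (hM : 1 ≤ M) (hJ : Wsp J) (hJM : ∀ t ∈ J, |t - t0| ≤ M) (hf : Continuous f)
    (hf0 : ∀ u, 0 ≤ f u) (hfi : ∀ t, Integrable (fun τ => k τ * f (t + τ))) :
    ∑ t ∈ J, ENNReal.ofReal ((∫ τ : ℝ, k τ * f (t + τ)) ^ 2) ≤
      ∑' j : ℤ, ENNReal.ofReal (B * ((1 + |(j : ℝ)|) ^ 2)⁻¹) *
        ∫⁻ u in Set.Icc (-M) M, ENNReal.ofReal (f (u + (2 * j * M + t0)) ^ 2) := by
  have e : ∀ t τ : ℝ, (fun u => f (u + t0)) (t + τ) = f (t + t0 + τ) := fun t τ => by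
    show f (t + τ + t0) = _
    rw [show t + τ + t0 = t + t0 + τ by ring]
  have h1 := h M (J.image (fun t => t - t0)) (fun u => f (u + t0)) hM (wsp_shift hJ t0)
    (fun t ht => by
      rw [Finset.mem_image] at ht
      obtain ⟨a, ha, rfl⟩ := ht
      exact hJM a ha)
    (hf.comp (continuous_id.add continuous_const)) (fun u => hf0 _)
    (fun t => by simp only [e]; exact hfi (t + t0))
  rw [Finset.sum_image (fun a _ b _ hab => sub_left_injective hab)] at h1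
  refine le_trans (le_of_eq ?_) (h1.trans (le_of_eq ?_))
  · refine Finset.sum_congr rfl (fun t _ => ?_)
    congr 2
    refine integral_congr_ae (Filter.Eventually.of_forall (fun τ => ?_))
    show k τ * f (t + τ) = k τ * f (t - t0 + τ + t0)
    rw [show t - t0 + τ + t0 = t + τ by ring]
  · refine tsum_congr (fun j => ?_)
    congr 1
    refine lintegral_congr (fun u => ?_)
    show ENNReal.ofReal (f (u + 2 * j * M + t0) ^ 2) = _
    rw [show u + 2 * j * M + t0 = u + (2 * j * M + t0) by ring]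

/-- the powers -/
lemma gk_alg {m : ℕ} (hm1 : 1 ≤ m) {N H R c' C2 e1 X : ℝ} (hN : 1 ≤ N) (hH : 1 ≤ H) (hR : H ≤ R)
    (hc' : 0 < c') (hc1 : c' ≤ 1) (hC2 : 1 ≤ C2) (he : 0 < e1) (he1 : e1 ≤ 1) (hX1 : 1 ≤ X)
    (hX : X ≤ 2 * (C2 * (N * R ^ m) ^ (1 / 2 : ℝ) * (N * R) ^ e1)) {δ : ℝ} (hδ : δ = c' / H) :
    (N * δ⁻¹ * X) ^ (2 * e1) * N ^ m * δ⁻¹ ^ (m ^ 2) * (1 + δ ^ m * X / N) ^ m ≤
      (2 * C2 * c'⁻¹) ^ (2 * e1) * (2 ^ m * (c'⁻¹ ^ (m ^ 2) + (2 * C2) ^ m)) *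
        (N * R) ^ ((3 * m + 4) * e1) *
        (N ^ m * H ^ (m ^ 2) + N ^ ((m : ℝ) / 2) * R ^ ((m : ℝ) ^ 2 / 2)) := by
  have hN0 : 0 < N := by linarith
  have hH0 : 0 < H := by linarith
  have hR0 : 0 < R := by linarith
  have hR1 : 1 ≤ R := by linarith
  have hX0 : 0 < X := by linarith
  have hC20 : 0 < C2 := by linarith
  have hNR : 1 ≤ N * R := by nlinarith
  have hδ0 : 0 < δ := by rw [hδ]; positivity
  have hδi : δ⁻¹ = c'⁻¹ * H := by rw [hδ]; field_simp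
  have hc'i : 1 ≤ c'⁻¹ := (one_le_inv₀ hc').2 hc1
  -- the first factor
  have h1 : (N * R ^ m) ^ (1 / 2 : ℝ) ≤ (N * R) ^ m := by
    have a1 : 1 ≤ N * R ^ m := by
      have : 1 ≤ R ^ m := one_le_pow₀ hR1
      nlinarith
    calc (N * R ^ m) ^ (1 / 2 : ℝ) ≤ (N * R ^ m) ^ (1 : ℝ) :=
          Real.rpow_le_rpow_of_exponent_le a1 (by norm_num)
      _ = N * R ^ m := Real.rpow_one _
      _ ≤ N ^ m * R ^ m := mul_le_mul_of_nonneg_right
          (le_self_pow₀ hN (by omega)) (by positivity)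
      _ = _ := by rw [mul_pow]
  have h2 : (N * R) ^ e1 ≤ N * R := by
    calc (N * R) ^ e1 ≤ (N * R) ^ (1 : ℝ) := Real.rpow_le_rpow_of_exponent_le hNR he1
      _ = _ := Real.rpow_one _
  have h3 : N * δ⁻¹ * X ≤ 2 * C2 * c'⁻¹ * (N * R) ^ (m + 2) := by
    rw [hδi]
    calc N * (c'⁻¹ * H) * X ≤
        N * (c'⁻¹ * R) * (2 * (C2 * (N * R ^ m) ^ (1 / 2 : ℝ) * (N * R) ^ e1)) := by gcongr
      _ ≤ N * (c'⁻¹ * R) * (2 * (C2 * (N * R) ^ m * (N * R))) := by gcongr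
      _ = _ := by ring
  have h4 : (N * δ⁻¹ * X) ^ (2 * e1) ≤
      (2 * C2 * c'⁻¹) ^ (2 * e1) * (N * R) ^ ((2 * m + 4) * e1) := by
    calc (N * δ⁻¹ * X) ^ (2 * e1) ≤ (2 * C2 * c'⁻¹ * (N * R) ^ (m + 2)) ^ (2 * e1) :=
          Real.rpow_le_rpow (by positivity) h3 (by positivity)
      _ = (2 * C2 * c'⁻¹) ^ (2 * e1) * (N * R) ^ ((2 * m + 4) * e1) := by
          rw [Real.mul_rpow (by positivity) (by positivity), ← Real.rpow_natCast (N * R) (m + 2),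
            ← Real.rpow_mul (by positivity)]
          congr 2
          push_cast
          ring
  -- the second factor
  have h5 : N ^ m * δ⁻¹ ^ (m ^ 2) * (1 + δ ^ m * X / N) ^ m = (N * δ⁻¹ ^ m + X) ^ m := by
    have a0 : δ⁻¹ ^ m * δ ^ m = 1 := by rw [← mul_pow, inv_mul_cancel₀ hδ0.ne', one_pow]
    have a2 : N * (X / N) = X := by field_simp
    have a1 : N * δ⁻¹ ^ m + X = N * δ⁻¹ ^ m * (1 + δ ^ m * X / N) := by
      calc N * δ⁻¹ ^ m + X = N * δ⁻¹ ^ m + (δ⁻¹ ^ m * δ ^ m) * (N * (X / N)) := by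
            rw [a0, a2, one_mul]
        _ = _ := by ring
    rw [a1, mul_pow, mul_pow, ← pow_mul, ← pow_two]
  have h6 : (N * δ⁻¹ ^ m + X) ^ m ≤ 2 ^ m * ((N * δ⁻¹ ^ m) ^ m + X ^ m) := by
    have a1 := add_pow_le (a := N * δ⁻¹ ^ m) (b := X) (by positivity) hX0.le m
    refine a1.trans ?_
    gcongr
    · norm_num
    · omega
  have h7 : (N * δ⁻¹ ^ m) ^ m = c'⁻¹ ^ (m ^ 2) * (N ^ m * H ^ (m ^ 2)) := by
    rw [mul_pow, ← pow_mul, ← pow_two, hδi, mul_pow]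
    ring
  have h8 : X ^ m ≤ (2 * C2) ^ m * (N * R) ^ (m * e1) *
      (N ^ ((m : ℝ) / 2) * R ^ ((m : ℝ) ^ 2 / 2)) := by
    have a1 : ((N * R ^ m) ^ (1 / 2 : ℝ)) ^ m = N ^ ((m : ℝ) / 2) * R ^ ((m : ℝ) ^ 2 / 2) := by
      rw [← Real.rpow_natCast, ← Real.rpow_mul (by positivity),
        Real.mul_rpow hN0.le (by positivity), ← Real.rpow_natCast R m, ← Real.rpow_mul hR0.le]
      congr 2 <;> ring
    have a2 : ((N * R) ^ e1) ^ m = (N * R) ^ (m * e1) := by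
      rw [← Real.rpow_natCast, ← Real.rpow_mul (by positivity)]
      congr 1
      ring
    calc X ^ m ≤ (2 * (C2 * (N * R ^ m) ^ (1 / 2 : ℝ) * (N * R) ^ e1)) ^ m :=
          pow_le_pow_left₀ hX0.le hX m
      _ = (2 * C2) ^ m * ((N * R) ^ e1) ^ m * ((N * R ^ m) ^ (1 / 2 : ℝ)) ^ m := by
          rw [← mul_pow, ← mul_pow]
          congr 1
          ring
      _ = _ := by rw [a1, a2]
  have h9 : 1 ≤ (N * R) ^ ((m : ℝ) * e1) := Real.one_le_rpow hNR (by positivity)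
  have h10 : N ^ m * δ⁻¹ ^ (m ^ 2) * (1 + δ ^ m * X / N) ^ m ≤
      2 ^ m * (c'⁻¹ ^ (m ^ 2) + (2 * C2) ^ m) * (N * R) ^ (m * e1) *
        (N ^ m * H ^ (m ^ 2) + N ^ ((m : ℝ) / 2) * R ^ ((m : ℝ) ^ 2 / 2)) := by
    rw [h5]
    refine h6.trans ?_
    rw [h7]
    obtain ⟨a, ha⟩ : ∃ a : ℝ, a = N ^ m * H ^ (m ^ 2) := ⟨_, rfl⟩
    obtain ⟨b, hb⟩ : ∃ b : ℝ, b = N ^ ((m : ℝ) / 2) * R ^ ((m : ℝ) ^ 2 / 2) := ⟨_, rfl⟩
    obtain ⟨p, hp⟩ : ∃ p : ℝ, p = c'⁻¹ ^ (m ^ 2) := ⟨_, rfl⟩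
    obtain ⟨q, hq⟩ : ∃ q : ℝ, q = (2 * C2) ^ m := ⟨_, rfl⟩
    obtain ⟨z, hz⟩ : ∃ z : ℝ, z = (N * R) ^ ((m : ℝ) * e1) := ⟨_, rfl⟩
    rw [← hb, ← hq, ← hz] at h8
    rw [← hz] at h9
    rw [← ha, ← hb, ← hp, ← hq, ← hz]
    have ha0 : 0 ≤ a := by rw [ha]; positivity
    have hb0 : 0 ≤ b := by rw [hb]; positivity
    have hp0 : 0 ≤ p := by rw [hp]; positivity
    have hq0 : 0 ≤ q := by rw [hq]; positivity
    have b1 : p * a ≤ p * a * z := le_mul_of_one_le_right (by positivity) h9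
    have b2 : p * a + X ^ m ≤ (p + q) * z * (a + b) := by
      have : 0 ≤ p * z * b + q * z * a := by positivity
      nlinarith
    calc 2 ^ m * (p * a + X ^ m) ≤ 2 ^ m * ((p + q) * z * (a + b)) := by gcongr
      _ = _ := by ring
  calc (N * δ⁻¹ * X) ^ (2 * e1) * N ^ m * δ⁻¹ ^ (m ^ 2) * (1 + δ ^ m * X / N) ^ m =
      (N * δ⁻¹ * X) ^ (2 * e1) * (N ^ m * δ⁻¹ ^ (m ^ 2) * (1 + δ ^ m * X / N) ^ m) := by ring
    _ ≤ ((2 * C2 * c'⁻¹) ^ (2 * e1) * (N * R) ^ ((2 * m + 4) * e1)) *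
        (2 ^ m * (c'⁻¹ ^ (m ^ 2) + (2 * C2) ^ m) * (N * R) ^ (m * e1) *
        (N ^ m * H ^ (m ^ 2) + N ^ ((m : ℝ) / 2) * R ^ ((m : ℝ) ^ 2 / 2))) := by gcongr
    _ = (2 * C2 * c'⁻¹) ^ (2 * e1) * (2 ^ m * (c'⁻¹ ^ (m ^ 2) + (2 * C2) ^ m)) *
        ((N * R) ^ ((2 * m + 4) * e1) * (N * R) ^ (m * e1)) *
        (N ^ m * H ^ (m ^ 2) + N ^ ((m : ℝ) / 2) * R ^ ((m : ℝ) ^ 2 / 2)) := by ring
    _ = _ := by
        rw [← Real.rpow_add (by positivity)]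
        congr 3
        ring

end Pool.Agent.H81.THN
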