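import Pool.Agent.H81.THN.GK0

/-!
Board thn, row GK1: the second moment at well spaced points of a window, from the sum of the
weights and the mean square of the truncated L-functions.
-/

set_option autoImplicit false

namespace Pool.Agent.H81.THN

open MeasureTheory Pool.Agent.H27.L1.H34.GM Pool.Agent.H27.L1.H34.GZ Pool.Agent.H27.L1.H34.GU
  Pool.Agent.H27.L1.H34.GA Pool.Agent.H27.L1.H68.GHY Pool.Agent.H27.L1.H34.GHY
  Pool.Agent.H27.L1.H34.GZZ Pool.Agent.H27.L1.H23.GB Pool.Agent.H47.THN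

lemma lip_up {m N : ℕ} [NeZero N] {D : Set (V m)} {F : Mat m → VN m N → ℂ} {P R : ℝ}
    (h : Lip D F P) (hP : 0 ≤ P) (hPR : P ≤ R) : Lip D F R := by
  intro w hw
  refine (h w hw).trans ?_
  have h1 : 0 ≤ sz (w - 1) := norm_nonneg _
  gcongr

theorem pf_GK1 (hENA : T_ENA) (hHYZ : T_HYZ) : T_GK1 := by
  intro m hm1 ε hε
  have hmm : (0 : ℝ) ≤ m := by positivity
  obtain ⟨e1, he1, he11, he1ε⟩ : ∃ e1 : ℝ, 0 < e1 ∧ e1 ≤ 1 ∧ (3 * m + 6) * e1 ≤ ε := by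
    refine ⟨min 1 (ε / (3 * m + 6)), by positivity, min_le_left _ _, ?_⟩
    calc (3 * (m : ℝ) + 6) * min 1 (ε / (3 * m + 6)) ≤ (3 * m + 6) * (ε / (3 * m + 6)) := by
          gcongr
          exact min_le_right _ _
      _ = ε := by field_simp
  obtain ⟨C2, hC2, hH⟩ := hHYZ m hm1 e1 he1
  obtain ⟨k, hkd⟩ : ∃ k : ℝ → ℝ, k = fun τ => ((1 + |τ|) ^ 4)⁻¹ := ⟨_, rfl⟩
  have hkc : Continuous k := by
    rw [hkd]
    refine Continuous.inv₀ (by fun_prop) (fun τ => ?_)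
    positivity
  have hknn : ∀ τ, 0 ≤ k τ := fun τ => by rw [hkd]; positivity
  have hk1 : ∀ τ, k τ ≤ 1 * ((1 + |τ|) ^ 4)⁻¹ := fun τ => by rw [hkd, one_mul]
  obtain ⟨C2', hC2'⟩ : ∃ C2' : ℝ, C2' = max C2 1 := ⟨_, rfl⟩
  have hC2'1 : 1 ≤ C2' := by rw [hC2']; exact le_max_right _ _
  have hC2'2 : C2 ≤ C2' := by rw [hC2']; exact le_max_left _ _
  obtain ⟨B, hB, hW⟩ := wsp_int2 k hkc hknn 1 one_pos hk1
  refine ⟨e1, he1, ?_⟩
  intro c' C1 C3 hc' hc'1 hC1 hC3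
  obtain ⟨S2, hS2⟩ : ∃ S2 : ℝ, S2 = ∑' j : ℤ, ((1 + |(j : ℝ)|) ^ 2)⁻¹ := ⟨_, rfl⟩
  have hS2nn : 0 ≤ S2 := by rw [hS2]; exact tsum_nonneg (fun j => by positivity)
  -- the final constant
  obtain ⟨KA, hKA⟩ : ∃ KA : ℝ, KA = (2 * C2' * c'⁻¹) ^ (2 * e1) *
    (2 ^ m * (c'⁻¹ ^ (m ^ 2) + (2 * C2') ^ m)) := ⟨_, rfl⟩
  have hKA0 : 0 ≤ KA := by rw [hKA]; positivity
  obtain ⟨KB, hKB⟩ : ∃ KB : ℝ, KB = 4 * C3 * (c'⁻¹ ^ e1 * c'⁻¹ ^ (m ^ 2)) := ⟨_, rfl⟩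
  have hKB0 : 0 ≤ KB := by rw [hKB]; positivity
  obtain ⟨K, hK⟩ : ∃ K : ℝ, K = 2 * C2 ^ 2 * (KB + B * S2 * (C1 * KA)) := ⟨_, rfl⟩
  have hKnn : 0 ≤ K := by rw [hK]; positivity
  refine ⟨K + 1, by positivity, ?_⟩
  intro N _ T D hSys H hH1 ι _ _ F lam W hF hW0 δ hδ hcard hdyd0
  have hN2 := hSys.two_le
  have hN0 : (0 : ℝ) < N := by
    have : 0 < N := by omega
    exact_mod_cast this
  have hN1 : (1 : ℝ) ≤ N := by
    have : 1 ≤ N := by omega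
    exact_mod_cast this
  have hH0 : 0 < H := by linarith
  have hn1 : ∀ i, nU D (F i) = 1 := fun i => (hF i).2.2
  have hnz : ∀ i, NZ (F i) := fun i => mou_nz hm1 hSys.dom (F i) (by rw [hn1 i]; exact one_ne_zero)
  have hL0 : ∀ i, ∃ L : ℂ → ℂ, IsL m 1 (lam i) L ∧ ∀ ψ : ℝ → ℂ, Wc m ψ (lam i) →
      ∀ s : ℂ, LmA m ψ (lam i) s = L s * MelA m ψ s := fun i =>
    hENA m N T D hSys (F i) (lam i) (hF i).1 (hnz i)
  choose L hLL hLm using hL0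
  refine ⟨L, hLL, ?_⟩
  intro t0 J hJ hJP
  obtain ⟨R, hR⟩ : ∃ R : ℝ, R = H + |t0| := ⟨_, rfl⟩
  have ht0 : 0 ≤ |t0| := abs_nonneg _
  have hHR : H ≤ R := by rw [hR]; linarith
  have hR1 : 1 ≤ R := hH1.trans hHR
  have hR0 : 0 < R := by linarith
  have hJR : ∀ i, ∀ t ∈ J i, |t| ≤ R := by
    intro i t ht
    have h1 := hJP i t ht
    have h2 : |t| ≤ |t - t0| + |t0| := by
      have := abs_add_le (t - t0) t0
      rwa [sub_add_cancel] at this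
    rw [hR]
    linarith
  -- parameters
  have hδ0 : 0 < δ := by rw [hδ]; positivity
  have hδi : δ⁻¹ = c'⁻¹ * H := by rw [hδ]; field_simp
  have hc'i : 1 ≤ c'⁻¹ := by
    rw [one_le_inv₀ hc']
    linarith
  have hPδ : H ≤ δ⁻¹ := by
    rw [hδi]
    exact le_mul_of_one_le_left hH0.le hc'i
  have hδi1 : 1 ≤ δ⁻¹ := hH1.trans hPδ
  have hNP : 1 ≤ (N : ℝ) * R := by nlinarith
  -- the length
  obtain ⟨X0, hX0⟩ : ∃ X0 : ℝ, X0 = C2' * ((N : ℝ) * R ^ m) ^ (1 / 2 : ℝ) * (N * R) ^ e1 := ⟨_, rfl⟩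
  have hX01 : 1 ≤ X0 := by
    rw [hX0]
    have e1' : 1 ≤ ((N : ℝ) * R ^ m) ^ (1 / 2 : ℝ) := by
      refine Real.one_le_rpow ?_ (by norm_num)
      have : 1 ≤ R ^ m := one_le_pow₀ hR1
      nlinarith
    have e2' : 1 ≤ ((N : ℝ) * R) ^ e1 := Real.one_le_rpow hNP he1.le
    calc (1 : ℝ) = 1 * 1 * 1 := by norm_num
      _ ≤ _ := by gcongr
  obtain ⟨X, hX⟩ : ∃ X : ℕ, X = ⌈X0⌉₊ := ⟨_, rfl⟩
  have hXge : X0 ≤ X := by rw [hX]; exact Nat.le_ceil _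
  have hXle : (X : ℝ) ≤ 2 * X0 := by
    rw [hX]
    have := Nat.ceil_lt_add_one (by linarith : 0 ≤ X0)
    linarith
  have hX1 : (1 : ℝ) ≤ X := hX01.trans hXge
  have halg := gk_alg hm1 hN1 hH1 hHR hc' (by linarith) hC2'1 he1 he11 hX1 (hX0 ▸ hXle) hδ
  rw [← hKA] at halg
  obtain ⟨Q, hQ⟩ : ∃ Q : ℝ, Q = (N : ℝ) ^ m * H ^ (m ^ 2) +
    (N : ℝ) ^ ((m : ℝ) / 2) * R ^ ((m : ℝ) ^ 2 / 2) := ⟨_, rfl⟩
  have hQ0 : 0 ≤ Q := by rw [hQ]; positivity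
  rw [← hQ] at halg
  have hQ2 : Q2 m N H t0 = Q := by rw [hQ, hR]; rfl
  -- the family
  have hdyd := hdyd0 X hX1
  -- one value
  set f : ι → ℝ → ℝ := fun i u => ‖SD (lam i) X u‖ with hf
  have hfc : ∀ i, Continuous (f i) := fun i => (sd_cont (lam i) X).norm
  have hf0 : ∀ i u, 0 ≤ f i u := fun i u => norm_nonneg _
  have hfi : ∀ i t, Integrable (fun τ => k τ * f i (t + τ)) := by
    intro i t
    obtain ⟨Bb, hBb⟩ := sd_bdd (lam i) X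
    refine krn_int4 hkc hknn hk1 (f i) (hfc i) Bb (fun u => ?_) t
    rw [abs_of_nonneg (hf0 i u)]
    exact hBb u
  have hval : ∀ i, ∀ t ∈ J i, ‖L i (1 / 2 + t * Complex.I)‖ ^ 2 ≤
      (2 * C2 ^ 2 * ((N : ℝ) * R) ^ (2 * e1)) * (1 + (∫ τ : ℝ, k τ * f i (t + τ)) ^ 2) := by
    intro i t ht
    have h1 := hH N T D hSys (F i) (lam i) R (hF i).1 (hn1 i)
      (lip_up (hF i).2.1 hH0.le hHR) hR1 (L i) (hLL i) t (hJR i t ht) X (by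
        refine le_trans ?_ hXge
        rw [hX0]
        gcongr)
    have h2 : ∫ τ : ℝ, ((1 + |τ|) ^ 4)⁻¹ * ‖SX (lam i) X (1 / 2 + ((t + τ : ℝ) : ℂ) * Complex.I)‖ =
        ∫ τ : ℝ, k τ * f i (t + τ) := by
      refine integral_congr_ae (Filter.Eventually.of_forall (fun τ => ?_))
      show ((1 + |τ|) ^ 4)⁻¹ * _ = k τ * f i (t + τ)
      rw [hf, hkd]
      simp only
      rw [← sx_sd]
    rw [h2] at h1
    have h3 : 0 ≤ ∫ τ : ℝ, k τ * f i (t + τ) :=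
      integral_nonneg (fun τ => mul_nonneg (hknn τ) (hf0 i _))
    obtain ⟨I, hI⟩ : ∃ I : ℝ, I = ∫ τ : ℝ, k τ * f i (t + τ) := ⟨_, rfl⟩
    rw [← hI] at h1 h3 ⊢
    have h5 := pow_le_pow_left₀ (norm_nonneg _) h1 2
    refine h5.trans ?_
    have h6 : (1 + I) ^ 2 ≤ 2 * (1 + I ^ 2) := by nlinarith [sq_nonneg (I - 1)]
    have h7 : (((N : ℝ) * R) ^ e1) ^ 2 = ((N : ℝ) * R) ^ (2 * e1) := by
      rw [← Real.rpow_natCast, ← Real.rpow_mul (by positivity)]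
      congr 1
      push_cast
      ring
    calc (C2 * ((N : ℝ) * R) ^ e1 * (1 + I)) ^ 2 =
        C2 ^ 2 * (((N : ℝ) * R) ^ e1) ^ 2 * (1 + I) ^ 2 := by ring
      _ ≤ C2 ^ 2 * (((N : ℝ) * R) ^ e1) ^ 2 * (2 * (1 + I ^ 2)) := by gcongr
      _ = _ := by rw [h7]; ring
  -- the sum of the smoothed values
  obtain ⟨G, hG⟩ : ∃ G : ℝ, G = C1 * ((N : ℝ) * δ⁻¹ * X) ^ (2 * e1) * (N : ℝ) ^ m *
    δ⁻¹ ^ (m ^ 2) * (1 + δ ^ m * X / N) ^ m := ⟨_, rfl⟩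
  have hG0 : 0 ≤ G := by rw [hG]; positivity
  have hGle : G ≤ C1 * (KA * ((N : ℝ) * R) ^ ((3 * m + 4) * e1) * Q) := by
    calc G = C1 * (((N : ℝ) * δ⁻¹ * X) ^ (2 * e1) * (N : ℝ) ^ m *
        δ⁻¹ ^ (m ^ 2) * (1 + δ ^ m * X / N) ^ m) := by rw [hG]; ring
      _ ≤ _ := mul_le_mul_of_nonneg_left halg hC1.le
  rw [← hG] at hdyd
  have hsm : ∑ i, W i * ∑ t ∈ J i, (∫ τ : ℝ, k τ * f i (t + τ)) ^ 2 ≤ B * S2 * G := by
    have e5 : ENNReal.ofReal (∑ i, W i * ∑ t ∈ J i, (∫ τ : ℝ, k τ * f i (t + τ)) ^ 2) ≤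
        ENNReal.ofReal (B * S2 * G) := by
      rw [ENNReal.ofReal_sum_of_nonneg (fun i _ => mul_nonneg (hW0 i) (Finset.sum_nonneg
        (fun t _ => sq_nonneg _)))]
      calc ∑ i, ENNReal.ofReal (W i * ∑ t ∈ J i, (∫ τ : ℝ, k τ * f i (t + τ)) ^ 2) =
          ∑ i, ENNReal.ofReal (W i) *
            ∑ t ∈ J i, ENNReal.ofReal ((∫ τ : ℝ, k τ * f i (t + τ)) ^ 2) := by
            refine Finset.sum_congr rfl (fun i _ => ?_)
            rw [ENNReal.ofReal_mul (hW0 i),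
              ENNReal.ofReal_sum_of_nonneg (fun t _ => sq_nonneg _)]
        _ ≤ ∑ i, ENNReal.ofReal (W i) * ∑' j : ℤ, ENNReal.ofReal (B * ((1 + |(j : ℝ)|) ^ 2)⁻¹) *
            ∫⁻ u in Set.Icc (-δ⁻¹) δ⁻¹, ENNReal.ofReal (f i (u + (2 * j * δ⁻¹ + t0)) ^ 2) :=
            Finset.sum_le_sum (fun i _ => mul_le_mul_right (wsp_int0 hW hδi1 (hJ i)
              (fun t ht => (hJP i t ht).trans hPδ) (hfc i) (hf0 i) (hfi i)) _)
        _ = ∑ i, ∑' j : ℤ, ENNReal.ofReal (B * ((1 + |(j : ℝ)|) ^ 2)⁻¹) *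
            (ENNReal.ofReal (W i) *
              ∫⁻ u in Set.Icc (-δ⁻¹) δ⁻¹,
                ENNReal.ofReal (f i (u + (2 * j * δ⁻¹ + t0)) ^ 2)) := by
            refine Finset.sum_congr rfl (fun i _ => ?_)
            rw [← ENNReal.tsum_mul_left]
            refine tsum_congr (fun j => ?_)
            rw [mul_left_comm]
        _ = ∑' j : ℤ, ∑ i, ENNReal.ofReal (B * ((1 + |(j : ℝ)|) ^ 2)⁻¹) *
            (ENNReal.ofReal (W i) *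
              ∫⁻ u in Set.Icc (-δ⁻¹) δ⁻¹,
                ENNReal.ofReal (f i (u + (2 * j * δ⁻¹ + t0)) ^ 2)) :=
            (Summable.tsum_finsetSum (fun i _ => ENNReal.summable)).symm
        _ ≤ ∑' j : ℤ, ENNReal.ofReal (B * ((1 + |(j : ℝ)|) ^ 2)⁻¹) * ENNReal.ofReal G := by
            refine ENNReal.tsum_le_tsum (fun j => ?_)
            rw [← Finset.mul_sum]
            exact mul_le_mul_right (hdyd (2 * j * δ⁻¹ + t0)) _
        _ = ENNReal.ofReal (B * S2 * G) := by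
            rw [ENNReal.tsum_mul_right, ENNReal.ofReal_mul (by positivity)]
            congr 1
            rw [hS2, ← tsum_mul_left, ENNReal.ofReal_tsum_of_nonneg (fun j => by positivity)
              (summable_int_sq.mul_left B)]
    exact (ENNReal.ofReal_le_ofReal_iff (by positivity)).1 e5
  -- the number of the points
  have hWs : 0 ≤ ∑ i, W i := Finset.sum_nonneg (fun i _ => hW0 i)
  have hct : ∑ i, W i * ∑ _t ∈ J i, (1 : ℝ) ≤ KB * (((N : ℝ) * R) ^ e1 * Q) := by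
    have a1 : ((N : ℝ) * δ⁻¹) ^ e1 ≤ c'⁻¹ ^ e1 * ((N : ℝ) * R) ^ e1 := by
      rw [← Real.mul_rpow (by positivity) (by positivity), hδi]
      refine Real.rpow_le_rpow (by positivity) ?_ he1.le
      calc (N : ℝ) * (c'⁻¹ * H) ≤ N * (c'⁻¹ * R) := by gcongr
        _ = _ := by ring
    have a2 : δ⁻¹ ^ (m ^ 2) = c'⁻¹ ^ (m ^ 2) * H ^ (m ^ 2) := by rw [hδi, mul_pow]
    have a3 : (N : ℝ) ^ m * H ^ (m ^ 2) ≤ Q := by
      rw [hQ]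
      have : 0 ≤ (N : ℝ) ^ ((m : ℝ) / 2) * R ^ ((m : ℝ) ^ 2 / 2) := by positivity
      linarith
    calc ∑ i, W i * ∑ _t ∈ J i, (1 : ℝ) = ∑ i, W i * ((J i).card : ℝ) := by simp
      _ ≤ ∑ i, W i * (4 * H) := Finset.sum_le_sum (fun i _ =>
          mul_le_mul_of_nonneg_left (wsp_card0 (hJ i) hH1 (hJP i)) (hW0 i))
      _ = 4 * ((∑ i, W i) * H) := by
          rw [← Finset.sum_mul]
          ring
      _ ≤ 4 * ((∑ i, W i) * δ⁻¹) := by gcongr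
      _ ≤ 4 * (C3 * ((N : ℝ) * δ⁻¹) ^ e1 * (N : ℝ) ^ m * δ⁻¹ ^ (m ^ 2)) := by gcongr
      _ ≤ 4 * (C3 * (c'⁻¹ ^ e1 * ((N : ℝ) * R) ^ e1) * (N : ℝ) ^ m *
          (c'⁻¹ ^ (m ^ 2) * H ^ (m ^ 2))) := by
          rw [a2]
          gcongr
      _ = KB * (((N : ℝ) * R) ^ e1 * ((N : ℝ) ^ m * H ^ (m ^ 2))) := by
          rw [hKB]
          ring
      _ ≤ _ := by gcongr
  have hq1 : ((N : ℝ) * R) ^ (2 * e1) * ((N : ℝ) * R) ^ e1 ≤ ((N : ℝ) * R) ^ ε := by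
    rw [← Real.rpow_add (by positivity)]
    refine Real.rpow_le_rpow_of_exponent_le hNP ?_
    nlinarith
  have hq2 : ((N : ℝ) * R) ^ (2 * e1) * ((N : ℝ) * R) ^ ((3 * m + 4) * e1) ≤
      ((N : ℝ) * R) ^ ε := by
    rw [← Real.rpow_add (by positivity)]
    refine Real.rpow_le_rpow_of_exponent_le hNP ?_
    nlinarith
  rw [hQ2, ← hR]
  calc ∑ i, W i * ∑ t ∈ J i, ‖L i (1 / 2 + t * Complex.I)‖ ^ 2 ≤
      ∑ i, W i * ∑ t ∈ J i, (2 * C2 ^ 2 * ((N : ℝ) * R) ^ (2 * e1)) *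
        (1 + (∫ τ : ℝ, k τ * f i (t + τ)) ^ 2) :=
        Finset.sum_le_sum (fun i _ => mul_le_mul_of_nonneg_left
          (Finset.sum_le_sum (fun t ht => hval i t ht)) (hW0 i))
    _ = (2 * C2 ^ 2 * ((N : ℝ) * R) ^ (2 * e1)) * (∑ i, W i * ∑ _t ∈ J i, (1 : ℝ) +
        ∑ i, W i * ∑ t ∈ J i, (∫ τ : ℝ, k τ * f i (t + τ)) ^ 2) := by
        rw [← Finset.sum_add_distrib, Finset.mul_sum]
        refine Finset.sum_congr rfl (fun i _ => ?_)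
        rw [← mul_add, ← Finset.sum_add_distrib, ← Finset.mul_sum]
        ring
    _ ≤ (2 * C2 ^ 2 * ((N : ℝ) * R) ^ (2 * e1)) * (KB * (((N : ℝ) * R) ^ e1 * Q) +
        B * S2 * (C1 * (KA * ((N : ℝ) * R) ^ ((3 * m + 4) * e1) * Q))) := by
        have := hsm.trans (mul_le_mul_of_nonneg_left hGle (by positivity : 0 ≤ B * S2))
        gcongr
    _ = 2 * C2 ^ 2 * (KB * (((N : ℝ) * R) ^ (2 * e1) * ((N : ℝ) * R) ^ e1) +
        B * S2 * (C1 * KA) * (((N : ℝ) * R) ^ (2 * e1) * ((N : ℝ) * R) ^ ((3 * m + 4) * e1))) *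
          Q := by ring
    _ ≤ 2 * C2 ^ 2 * (KB * ((N : ℝ) * R) ^ ε + B * S2 * (C1 * KA) * ((N : ℝ) * R) ^ ε) * Q := by
        gcongr
    _ = K * ((N : ℝ) * R) ^ ε * Q := by
        rw [hK]
        ring
    _ ≤ (K + 1) * ((N : ℝ) * R) ^ ε * Q := by
        gcongr
        linarith

/-- no hypotheses -/
theorem c_GK1 : T_GK1 :=
  pf_GK1 Pool.Agent.H27.L1.H23.GA.All.c_ENA Pool.Agent.H27.L1.H34.GZZ.c_HYZ

end Pool.Agent.H81.THN
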